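import Pool.Agent.V5helper23.ZW.Peak

set_option autoImplicit false

/-!
# Large values and local moments (helper23)
-/

namespace Pool.Agent.V5helper23.ZW

open Complex Set Filter Topology MeasureTheory
open Pool.Agent.V5helper33.ZM (zz zz_cont zz_nonneg log_ge)

lemma lin_int {h p : ℝ} (hh : 0 < h) (hp : 1 ≤ p) :
    ∫ w in (0:ℝ)..h, (1 - w / h) ^ p = h / (p + 1) := by
  have hp1 : p + 1 ≠ 0 := by linarith
  set Φ : ℝ → ℝ := fun w => -(h / (p + 1)) * (1 - w / h) ^ (p + 1) with hΦ
  have hlin : ∀ w : ℝ, HasDerivAt (fun w : ℝ => 1 - w / h) (-(1 / h)) w := by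
    intro w
    have := ((hasDerivAt_id w).div_const h).const_sub 1
    simpa using this
  have hder : ∀ w ∈ uIcc 0 h, HasDerivAt Φ ((1 - w / h) ^ p) w := by
    intro w _
    have h1 : HasDerivAt (fun w : ℝ => (1 - w / h) ^ (p + 1))
        (-(1 / h) * (p + 1) * (1 - w / h) ^ (p + 1 - 1)) w :=
      (hlin w).rpow_const (Or.inr (by linarith))
    have h3 := h1.const_mul (-(h / (p + 1)))
    refine h3.congr_deriv ?_
    have e1 : p + 1 - 1 = p := by ring
    rw [e1]
    field_simp
  have hcont : Continuous fun w : ℝ => (1 - w / h) ^ p :=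
    Continuous.rpow_const (by fun_prop) fun x => Or.inr (by linarith)
  rw [intervalIntegral.integral_eq_sub_of_hasDerivAt hder (hcont.intervalIntegrable _ _)]
  simp only [hΦ]
  rw [div_self hh.ne']
  have z1 : (1 - 1 : ℝ) ^ (p + 1) = 0 := by rw [sub_self]; exact Real.zero_rpow hp1
  rw [z1]
  simp

/-- a large value makes the local moment large -/
theorem value_le {T c p : ℝ} (hT : 1000 ≤ T) (h0 : 0 ≤ c) (hc : c ≤ 2 * T) (h1 : 1 ≤ zz c) (hp : 1 ≤ p) :
    zz c ^ p ≤ 18 * (p + 1) * Real.log T * ∫ u in (c - 1)..(c + 2), zz u ^ p := by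
  obtain ⟨x, hx, hlow⟩ := peak hT h0 hc h1
  set L := Real.log T with hL
  have hL0 : 69 / 10 ≤ L := log_ge hT
  set h := 1 / (18 * L) with hh
  have hh0 : 0 < h := by positivity
  have hh1 : h ≤ 1 := by
    rw [hh, div_le_one (by positivity)]
    linarith
  have hgp : Continuous fun t => zz t ^ p := zz_cont.rpow_const fun _ => Or.inr (by linarith)
  have hgp0 : ∀ t, 0 ≤ zz t ^ p := fun t => Real.rpow_nonneg (zz_nonneg t) _
  have I1 : ∫ u in (c + x)..(c + x + h), zz u ^ p ≤ ∫ u in (c - 1)..(c + 2), zz u ^ p :=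
    intervalIntegral.integral_mono_interval (by linarith [hx.1]) (by linarith) (by linarith [hx.2])
      (Eventually.of_forall hgp0) (hgp.intervalIntegrable _ _)
  have I2 : ∫ w in (0:ℝ)..h, zz (c + x + w) ^ p = ∫ u in (c + x)..(c + x + h), zz u ^ p := by
    rw [intervalIntegral.integral_comp_add_left (fun u => zz u ^ p) (c + x)]
    simp
  have I3 : ∫ w in (0:ℝ)..h, zz c ^ p * (1 - w / h) ^ p ≤ ∫ w in (0:ℝ)..h, zz (c + x + w) ^ p := by
    have hc1 : Continuous fun w : ℝ => zz c ^ p * (1 - w / h) ^ p :=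
      continuous_const.mul (Continuous.rpow_const (by fun_prop) fun x => Or.inr (by linarith))
    have hc2 : Continuous fun w : ℝ => zz (c + x + w) ^ p := hgp.comp (by fun_prop)
    apply intervalIntegral.integral_mono_on hh0.le (hc1.intervalIntegrable _ _)
      (hc2.intervalIntegrable _ _)
    intro w hw
    have hw1 : 0 ≤ 1 - w / h := by
      rw [sub_nonneg, div_le_one hh0]
      exact hw.2
    rw [← Real.mul_rpow (zz_nonneg c) hw1]
    apply Real.rpow_le_rpow (mul_nonneg (zz_nonneg c) hw1) _ (by linarith)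
    have := hlow w hw.1
    have e : w / h = 18 * L * w := by
      rw [hh]
      field_simp
    rw [e]
    exact this
  rw [intervalIntegral.integral_const_mul, lin_int hh0 hp, I2] at I3
  have hLp : 0 < 18 * (p + 1) * L := by positivity
  calc zz c ^ p = 18 * (p + 1) * L * (zz c ^ p * (h / (p + 1))) := by
        rw [hh]; field_simp
    _ ≤ 18 * (p + 1) * L * ∫ u in (c - 1)..(c + 2), zz u ^ p := by
        gcongr
        exact I3.trans I1

/-- the maximal inequality for sequences -/
lemma greedy (a : ℕ → ℝ) (ha : ∀ i, 0 ≤ a i) (lam : ℝ) (hl : 0 ≤ lam) (N : ℕ) :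
    ∀ (s : ℕ) (J : Finset ℕ), J.card ≤ s → ∀ m : ℕ, (∀ j ∈ J, m ≤ j) →
      (∀ j ∈ J, ∃ n : ℕ, 1 ≤ n ∧ j + n ≤ N ∧ lam * n ≤ ∑ i ∈ Finset.Ico j (j + n), a i) →
      lam * J.card ≤ ∑ i ∈ Finset.Ico m N, a i := by
  intro s
  induction s with
  | zero =>
    intro J hJ m _ _
    have : J.card = 0 := by omega
    rw [this]
    simp
    exact Finset.sum_nonneg fun i _ => ha i
  | succ s ih =>
    intro J hJ m hm hn
    rcases J.eq_empty_or_nonempty with he | hne
    · rw [he]
      simp
      exact Finset.sum_nonneg fun i _ => ha i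
    · set j := J.min' hne with hj
      have hjJ : j ∈ J := J.min'_mem hne
      obtain ⟨n, hn1, hn2, hn3⟩ := hn j hjJ
      set J' := J.filter (fun i => j + n ≤ i) with hJ'
      have hsub : J \ J' ⊆ Finset.Ico j (j + n) := by
        intro i hi
        rw [Finset.mem_sdiff, hJ', Finset.mem_filter] at hi
        have h1 : j ≤ i := J.min'_le i hi.1
        have h2 : ¬ j + n ≤ i := fun h => hi.2 ⟨hi.1, h⟩
        rw [Finset.mem_Ico]
        omega
      have hc1 : (J \ J').card ≤ n := by
        have := Finset.card_le_card hsub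
        simpa using this
      have hc2 : (J \ J').card + J'.card = J.card :=
        Finset.card_sdiff_add_card_eq_card (Finset.filter_subset _ _)
      have hj' : j ∉ J' := by
        rw [hJ', Finset.mem_filter]
        rintro ⟨_, h⟩
        omega
      have hlt : J'.card < J.card :=
        Finset.card_lt_card ⟨Finset.filter_subset _ _, fun h => hj' (h hjJ)⟩
      have h1 := ih J' (by omega) (j + n) (fun i hi => (Finset.mem_filter.1 hi).2)
        (fun i hi => hn i (Finset.mem_filter.1 hi).1)
      have h2 : lam * J.card ≤ lam * n + lam * J'.card := by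
        have : (J.card : ℝ) ≤ n + J'.card := by
          have : J.card ≤ n + J'.card := by omega
          exact_mod_cast this
        nlinarith
      have h3 : ∑ i ∈ Finset.Ico j (j + n), a i + ∑ i ∈ Finset.Ico (j + n) N, a i ≤
          ∑ i ∈ Finset.Ico m N, a i := by
        rw [Finset.sum_Ico_consecutive a (by omega) hn2]
        apply Finset.sum_le_sum_of_subset_of_nonneg
        · exact Finset.Ico_subset_Ico (hm j hjJ) le_rfl
        · intro i _ _
          exact ha i
      linarith

end Pool.Agent.V5helper23.ZW
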