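import Pool.Agent.V5helper33.ZM.Mx

set_option autoImplicit false

/-!
# The zeta function near a large value on the critical line (helper23)

If `|ζ(1/2 + ic)| ≥ 1`, `0 ≤ c ≤ 2T`, then there is `x ∈ [-1, 1]` with
`|ζ(1/2 + i(c + x + w))| ≥ |ζ(1/2 + ic)| (1 - 18 w log T)` for all `w ≥ 0`.
-/

namespace Pool.Agent.V5helper23.ZW

open Complex Set Filter Topology MeasureTheory
open Pool.Agent.V5helper33.ZM (zz zz_cont zz_nonneg zeta_near lower log_ge)

/-- the localised function -/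
noncomputable def FW (κ c x : ℝ) (w : ℂ) : ℂ :=
  riemannZeta (1 / 2 + (((c + x : ℝ) : ℂ) + w) * I) * Complex.exp (-(κ : ℂ) * ((x : ℂ) + w) ^ 2)

lemma FW_real (κ c x u : ℝ) : ‖FW κ c x u‖ = zz (c + x + u) * Real.exp (-κ * (x + u) ^ 2) := by
  unfold FW zz
  rw [norm_mul]
  congr 1
  · push_cast
    rfl
  · rw [Complex.norm_exp]
    congr 1
    have : -(κ : ℂ) * ((x : ℂ) + (u : ℂ)) ^ 2 = ((-κ * (x + u) ^ 2 : ℝ) : ℂ) := by
      push_cast; ring
    rw [this, ofReal_re]

lemma FW_bd {T κ c x : ℝ} (hT : 1000 ≤ T) (hκ : 1 ≤ κ) (h0 : 0 ≤ c) (hc : c ≤ 2 * T)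
    {w : ℂ} (hw : |w.im| ≤ 1 / 4) :
    DifferentiableAt ℂ (FW κ c x) w ∧ ‖FW κ c x w‖ ≤ Real.exp (κ / 16) * (9 * T) := by
  set s : ℂ := 1 / 2 + (((c + x : ℝ) : ℂ) + w) * I with hs
  have habs := abs_le.1 hw
  have hre : s.re = 1 / 2 - w.im := by
    rw [hs]
    simp
    ring
  have him : s.im = c + (x + w.re) := by
    rw [hs]
    simp
    ring
  obtain ⟨hs1, hs2⟩ := zeta_near (s := s) (by rw [hre]; linarith [habs.2])
    (by rw [hre]; linarith [habs.1])
  constructor
  · have hf : DifferentiableAt ℂ (fun w : ℂ => 1 / 2 + (((c + x : ℝ) : ℂ) + w) * I) w := by fun_prop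
    have h1 : DifferentiableAt ℂ (fun w : ℂ => riemannZeta (1 / 2 + (((c + x : ℝ) : ℂ) + w) * I)) w :=
      DifferentiableAt.comp w (differentiableAt_riemannZeta hs1) hf
    have h2 : DifferentiableAt ℂ (fun w : ℂ => Complex.exp (-(κ : ℂ) * ((x : ℂ) + w) ^ 2)) w := by fun_prop
    exact h1.mul h2
  · set y : ℝ := x + w.re with hy
    have hn : ‖s‖ ≤ 3 / 4 + c + |y| := by
      have h3 := norm_le_abs_re_add_abs_im s
      have h4 : |s.re| ≤ 3 / 4 := by
        rw [hre, abs_le]; constructor <;> linarith [habs.1, habs.2]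
      have h5 : |s.im| ≤ c + |y| := by
        rw [him]
        refine (abs_add_le _ _).trans ?_
        rw [abs_of_nonneg h0]
      linarith
    have he : ‖Complex.exp (-(κ : ℂ) * ((x : ℂ) + w) ^ 2)‖ ≤ Real.exp (κ / 16) * Real.exp (-κ * y ^ 2) := by
      rw [Complex.norm_exp, ← Real.exp_add]
      apply Real.exp_le_exp.2
      have : (-(κ : ℂ) * ((x : ℂ) + w) ^ 2).re = -κ * (y ^ 2 - w.im ^ 2) := by
        rw [hy]
        simp [pow_two]
      rw [this]
      have h6 : w.im ^ 2 ≤ 1 / 16 := by nlinarith [habs.1, habs.2]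
      nlinarith
    have hye : |y| * Real.exp (-κ * y ^ 2) ≤ 1 := by
      have h7 : |y| ≤ Real.exp (κ * y ^ 2) := by
        have h8 := Real.add_one_le_exp (κ * y ^ 2)
        have h9 : |y| ≤ 1 + y ^ 2 := by
          rw [← sq_abs y]
          nlinarith [abs_nonneg y, sq_nonneg (|y| - 1)]
        nlinarith [sq_nonneg y]
      calc |y| * Real.exp (-κ * y ^ 2) ≤ Real.exp (κ * y ^ 2) * Real.exp (-κ * y ^ 2) := by gcongr
        _ = 1 := by rw [← Real.exp_add]; simp
    have he1 : Real.exp (-κ * y ^ 2) ≤ 1 := by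
      apply Real.exp_le_one_iff.2
      nlinarith [sq_nonneg y]
    show ‖riemannZeta s * Complex.exp (-(κ : ℂ) * ((x : ℂ) + w) ^ 2)‖ ≤ _
    rw [norm_mul]
    calc ‖riemannZeta s‖ * ‖Complex.exp (-(κ : ℂ) * ((x : ℂ) + w) ^ 2)‖
        ≤ (8 + 4 * c + 4 * |y|) * (Real.exp (κ / 16) * Real.exp (-κ * y ^ 2)) := by
          gcongr
          linarith
      _ = Real.exp (κ / 16) * ((8 + 4 * c) * Real.exp (-κ * y ^ 2) + 4 * (|y| * Real.exp (-κ * y ^ 2))) := by ring
      _ ≤ Real.exp (κ / 16) * ((8 + 4 * c) * 1 + 4 * 1) := by gcongr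
      _ ≤ Real.exp (κ / 16) * (9 * T) := by
          gcongr
          linarith

/-- **peaks are wide** -/
theorem peak {T c : ℝ} (hT : 1000 ≤ T) (h0 : 0 ≤ c) (hc : c ≤ 2 * T) (h1 : 1 ≤ zz c) :
    ∃ x ∈ Icc (-1 : ℝ) 1, ∀ w : ℝ, 0 ≤ w → zz c * (1 - 18 * Real.log T * w) ≤ zz (c + x + w) := by
  set L := Real.log T with hL
  have hL0 : 69 / 10 ≤ L := log_ge hT
  set κ := 2 * L with hκ
  set φ : ℝ → ℝ := fun y => zz (c + y) * Real.exp (-κ * y ^ 2) with hφ
  have hφc : Continuous φ := by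
    have : Continuous fun y => zz (c + y) := zz_cont.comp (by fun_prop)
    exact this.mul (by fun_prop)
  obtain ⟨x, hx, hmax⟩ := (isCompact_Icc (a := (-1:ℝ)) (b := 1)).exists_isMaxOn
    ⟨0, ⟨by norm_num, by norm_num⟩⟩ hφc.continuousOn
  have h00 : zz c ≤ φ x := by
    have := hmax (show (0:ℝ) ∈ Icc (-1:ℝ) 1 from ⟨by norm_num, by norm_num⟩)
    simpa [hφ] using this
  have hall : ∀ y : ℝ, φ y ≤ φ x := by
    intro y
    by_cases hy : y ∈ Icc (-1:ℝ) 1
    · exact hmax hy
    · refine le_trans ?_ (h1.trans h00)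
      have hy1 : 1 ≤ |y| := by
        by_contra hlt
        push Not at hlt
        rw [abs_lt] at hlt
        exact hy ⟨hlt.1.le, hlt.2.le⟩
      have hz : zz (c + y) ≤ 7 + 8 * T + 4 * |y| := by
        unfold zz
        have hre : ((1 / 2 : ℂ) + ((c + y : ℝ) : ℂ) * I).re = 1 / 2 := by simp
        have him : ((1 / 2 : ℂ) + ((c + y : ℝ) : ℂ) * I).im = c + y := by simp
        obtain ⟨_, hs2⟩ := zeta_near (s := (1 / 2 : ℂ) + ((c + y : ℝ) : ℂ) * I)
          (by rw [hre]; norm_num) (by rw [hre]; norm_num)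
        have h3 := norm_le_abs_re_add_abs_im ((1 / 2 : ℂ) + ((c + y : ℝ) : ℂ) * I)
        rw [hre, him] at h3
        have h4 : |c + y| ≤ c + |y| := by
          refine (abs_add_le _ _).trans ?_
          rw [abs_of_nonneg h0]
        have h5 : |(1 / 2 : ℝ)| = 1 / 2 := abs_of_pos (by norm_num)
        rw [h5] at h3
        linarith
      have hexp : T ^ 2 * |y| ≤ Real.exp (κ * y ^ 2) := by
        have hT0 : 0 < T := by linarith
        have h6 : Real.exp (κ * y ^ 2) = T ^ 2 * Real.exp (κ * (y ^ 2 - 1)) := by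
          have : T ^ 2 = Real.exp (2 * L) := by
            rw [hL, mul_comm, Real.exp_mul, Real.exp_log hT0]; norm_num
          rw [this, ← Real.exp_add]
          congr 1
          rw [hκ]; ring
        rw [h6]
        have hy2 : |y| ≤ y ^ 2 := by rw [← sq_abs y]; nlinarith
        have h7 := Real.add_one_le_exp (κ * (y ^ 2 - 1))
        have h8 : |y| ≤ Real.exp (κ * (y ^ 2 - 1)) := by nlinarith
        gcongr
      have hle : 7 + 8 * T + 4 * |y| ≤ Real.exp (κ * y ^ 2) := by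
        refine le_trans ?_ hexp
        nlinarith [mul_nonneg (by linarith : (0:ℝ) ≤ T) (by linarith : (0:ℝ) ≤ |y| - 1)]
      calc φ y ≤ Real.exp (κ * y ^ 2) * Real.exp (-κ * y ^ 2) := by
            show zz (c + y) * Real.exp (-κ * y ^ 2) ≤ _
            gcongr
            exact hz.trans hle
        _ = 1 := by rw [← Real.exp_add]; simp
  refine ⟨x, hx, ?_⟩
  intro w hw
  set V := φ x with hV
  have hV1 : 1 ≤ V := h1.trans h00
  have hd : ∀ w : ℂ, |w.im| ≤ 1 / 4 → DifferentiableAt ℂ (FW κ c x) w :=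
    fun w hw => (FW_bd hT (by rw [hκ]; linarith) h0 hc hw).1
  have hB : ∀ w : ℂ, |w.im| ≤ 1 / 4 → ‖FW κ c x w‖ ≤ Real.exp (κ / 16) * (9 * T) :=
    fun w hw => (FW_bd hT (by rw [hκ]; linarith) h0 hc hw).2
  have hR : ∀ u : ℝ, ‖FW κ c x u‖ ≤ V := by
    intro u
    rw [FW_real]
    have := hall (x + u)
    simp only [hφ] at this
    rw [← add_assoc] at this
    exact this
  have hF0 : ‖FW κ c x 0‖ = V := by
    have := FW_real κ c x 0
    rw [ofReal_zero] at this
    rw [this, hV, hφ]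
    simp
  have hVB : V ≤ Real.exp (κ / 16) * (9 * T) := by
    rw [← hF0]
    exact hB 0 (by simp)
  have hlog : (1 + Real.log (Real.exp (κ / 16) * (9 * T) / V)) / (1 / 4) ≤ 6.4 * L := by
    have hT0 : 0 < T := by linarith
    have h2 : Real.log (Real.exp (κ / 16) * (9 * T) / V) ≤ Real.log (Real.exp (κ / 16) * (9 * T)) := by
      apply Real.log_le_log (by positivity)
      exact div_le_self (by positivity) hV1
    have h3 : Real.log (Real.exp (κ / 16) * (9 * T)) = κ / 16 + (Real.log 9 + L) := by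
      rw [Real.log_mul (Real.exp_pos _).ne' (by positivity), Real.log_exp,
        Real.log_mul (by norm_num) hT0.ne']
    have h4 : Real.log 9 ≤ 2.2 := by
      have e9 : Real.log 9 = 2 * Real.log 3 := by
        rw [show (9:ℝ) = 3 ^ 2 by norm_num, Real.log_pow]; norm_num
      have h3' : Real.log 3 ≤ 1.1 := by
        rw [Real.log_le_iff_le_exp (by norm_num)]
        have e : Real.exp 1.1 = (Real.exp 1 ^ 11) ^ (1 / 10 : ℝ) := by
          rw [← Real.exp_nat_mul, ← Real.exp_mul]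
          norm_num
        rw [e]
        have h5 : (3:ℝ) ^ (10:ℝ) ≤ Real.exp 1 ^ 11 := by
          have h6 : (2.7182818283:ℝ) ^ 11 ≤ Real.exp 1 ^ 11 := by
            have := Real.exp_one_gt_d9
            gcongr
          refine le_trans ?_ h6
          norm_num
        calc (3:ℝ) = ((3:ℝ) ^ (10:ℝ)) ^ (1 / 10 : ℝ) := by
              rw [← Real.rpow_mul (by norm_num)]; norm_num
          _ ≤ _ := by gcongr
      rw [e9]; linarith
    rw [h3] at h2
    rw [div_le_iff₀ (by norm_num)]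
    rw [hκ] at h2 ⊢
    linarith
  have key := lower (by norm_num : (0:ℝ) < 1 / 4) (by linarith : 0 < V) hVB hd hB hR hF0 hlog hw
  rw [FW_real] at key
  have he1 : Real.exp (-κ * (x + w) ^ 2) ≤ 1 := by
    apply Real.exp_le_one_iff.2
    have : 0 ≤ κ := by rw [hκ]; linarith
    nlinarith [mul_nonneg this (sq_nonneg (x + w))]
  have h5 : zz (c + x + w) * Real.exp (-κ * (x + w) ^ 2) ≤ zz (c + x + w) := by
    nlinarith [zz_nonneg (c + x + w)]
  have h6 : Real.exp 1 * (6.4 * L) ≤ 18 * L := by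
    have := Real.exp_one_lt_d9
    nlinarith
  rcases le_total 0 (1 - 18 * L * w) with hs | hs
  · have h7 : 1 - 18 * L * w ≤ 1 - w * (Real.exp 1 * (6.4 * L)) := by nlinarith
    calc zz c * (1 - 18 * L * w) ≤ V * (1 - w * (Real.exp 1 * (6.4 * L))) := by gcongr
      _ ≤ zz (c + x + w) * Real.exp (-κ * (x + w) ^ 2) := key
      _ ≤ _ := h5
  · have : zz c * (1 - 18 * L * w) ≤ 0 := mul_nonpos_of_nonneg_of_nonpos (zz_nonneg c) hs
    exact this.trans (zz_nonneg _)

end Pool.Agent.V5helper23.ZW
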