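import Pool.Agent.V5helper23.ZW.Int

set_option autoImplicit false

/-!
# The exceptional set and the windows (helper23)
-/

namespace Pool.Agent.V5helper23.ZW

open Complex Set Filter Topology MeasureTheory
open Pool.Agent.V5helper33.ZM (zz zz_cont zz_nonneg log_ge)

lemma zz_even (t : ℝ) : zz (-t) = zz t := by
  unfold zz
  have h : (1 / 2 : ℂ) + ((-t : ℝ) : ℂ) * I = (starRingEnd ℂ) (1 / 2 + (t : ℂ) * I) := by
    rw [map_add, map_mul, Complex.conj_ofReal, Complex.conj_I, map_div₀, map_one]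
    have : (starRingEnd ℂ) (2 : ℂ) = 2 := by
      have := Complex.conj_ofReal (2 : ℝ)
      push_cast at this
      exact this
    rw [this]
    push_cast
    ring
  rw [h, riemannZeta_conj, Complex.norm_conj]

lemma start_le {p T : ℝ} (hp : 1 ≤ p) (hT : 1 ≤ T) :
    ∫ u in (-1:ℝ)..T, zz u ^ p ≤ 2 * ∫ u in (0:ℝ)..T, zz u ^ p := by
  have hgp : Continuous fun t => zz t ^ p := zz_cont.rpow_const fun _ => Or.inr (by linarith)
  have hgp0 : ∀ t, 0 ≤ zz t ^ p := fun t => Real.rpow_nonneg (zz_nonneg t) _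
  have h1 : ∫ u in (-1:ℝ)..0, zz u ^ p = ∫ u in (0:ℝ)..1, zz u ^ p := by
    have := intervalIntegral.integral_comp_neg (a := (0:ℝ)) (b := 1) (fun u => zz u ^ p)
    simp only [zz_even, neg_zero] at this
    exact this.symm
  have h2 : ∫ u in (0:ℝ)..1, zz u ^ p ≤ ∫ u in (0:ℝ)..T, zz u ^ p :=
    intervalIntegral.integral_mono_interval le_rfl (by norm_num) hT
      (Eventually.of_forall hgp0) (hgp.intervalIntegrable _ _)
  rw [← intervalIntegral.integral_add_adjacent_intervals (b := (0:ℝ))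
    (hgp.intervalIntegrable _ _) (hgp.intervalIntegrable _ _), h1]
  linarith

/-- **the exceptional set** -/
theorem exc {T p lam : ℝ} (hT : 1000 ≤ T) (hp : 1 ≤ p) (hl : 0 < lam) :
    ∃ E : Set ℝ, MeasurableSet E ∧
      volume E ≤ ENNReal.ofReal (2 * (∫ u in (0:ℝ)..(3 * T), zz u ^ p) / lam) ∧
      ∀ t ∈ Icc (0:ℝ) T \ E, ∀ H : ℝ, 1 ≤ H → H ≤ T →
        ∫ u in (t - 1)..(t + H + 2), zz u ^ p ≤ 6 * lam * H := by
  classical
  have hgp : Continuous fun t => zz t ^ p := zz_cont.rpow_const fun _ => Or.inr (by linarith)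
  have hgp0 : ∀ t, 0 ≤ zz t ^ p := fun t => Real.rpow_nonneg (zz_nonneg t) _
  set c : ℕ → ℝ := fun k => (k:ℝ) - 1 with hc
  set a : ℕ → ℝ := fun i => ∫ u in c i..c (i + 1), zz u ^ p with ha
  have ha0 : ∀ i, 0 ≤ a i := by
    intro i
    apply intervalIntegral.integral_nonneg
    · simp only [hc]; push_cast; linarith
    · intro u _; exact hgp0 u
  have hsum : ∀ m n : ℕ, m ≤ n → ∑ i ∈ Finset.Ico m n, a i = ∫ u in c m..c n, zz u ^ p := by
    intro m n hmn
    exact intervalIntegral.sum_integral_adjacent_intervals_Ico hmn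
      (fun k _ => hgp.intervalIntegrable _ _)
  set N : ℕ := ⌊T⌋₊ + ⌈T⌉₊ + 5 with hN
  set J : Finset ℕ := (Finset.range (⌊T⌋₊ + 1)).filter
    (fun j => ∃ n : ℕ, 1 ≤ n ∧ j + n ≤ N ∧ lam * n ≤ ∑ i ∈ Finset.Ico j (j + n), a i) with hJ
  have hT0 : (0:ℝ) ≤ T := by linarith
  have hgr := greedy a ha0 lam hl.le N J.card J le_rfl 0 (fun j _ => Nat.zero_le j)
    (fun j hj => (Finset.mem_filter.1 hj).2)
  rw [hsum 0 N (Nat.zero_le N)] at hgr
  have hcN : c N ≤ 3 * T := by
    simp only [hc, hN]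
    push_cast
    have h1 := Nat.floor_le hT0
    have h2 := (Nat.ceil_lt_add_one hT0).le
    linarith
  have hc0 : c 0 = -1 := by simp [hc]
  have hcN1 : (-1:ℝ) ≤ c N := by
    simp only [hc]
    have : (0:ℝ) ≤ (N:ℝ) := by positivity
    linarith
  have hcard : (J.card : ℝ) ≤ 2 * (∫ u in (0:ℝ)..(3 * T), zz u ^ p) / lam := by
    rw [le_div_iff₀ hl, mul_comm]
    refine hgr.trans ?_
    rw [hc0]
    refine le_trans ?_ (start_le hp (by linarith))
    exact intervalIntegral.integral_mono_interval le_rfl hcN1 hcN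
      (Eventually.of_forall hgp0) (hgp.intervalIntegrable _ _)
  refine ⟨⋃ j ∈ J, Ico (j:ℝ) (j + 1), ?_, ?_, ?_⟩
  · exact Finset.measurableSet_biUnion J fun j _ => measurableSet_Ico
  · refine (measure_biUnion_finset_le J _).trans ?_
    have : ∀ j ∈ J, volume (Ico (j:ℝ) (j + 1)) = 1 := by
      intro j _
      rw [Real.volume_Ico]
      simp
    rw [Finset.sum_congr rfl this, Finset.sum_const, nsmul_eq_mul, mul_one]
    have h2 : ((J.card : ℕ) : ENNReal) = ENNReal.ofReal (J.card : ℝ) := by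
      rw [ENNReal.ofReal_natCast]
    rw [h2]
    exact ENNReal.ofReal_le_ofReal hcard
  · rintro t ⟨ht, htE⟩ H hH1 hHT
    set j : ℕ := ⌊t⌋₊ with hj
    have hj1 : (j:ℝ) ≤ t := Nat.floor_le ht.1
    have hj2 : t < j + 1 := Nat.lt_floor_add_one t
    have hjT : j ≤ ⌊T⌋₊ := Nat.floor_le_floor ht.2
    have hjJ : j ∉ J := by
      intro h
      apply htE
      simp only [mem_iUnion]
      exact ⟨j, h, hj1, hj2⟩
    set n : ℕ := ⌈H⌉₊ + 4 with hn
    have hH0 : (0:ℝ) ≤ H := by linarith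
    have hn1 : H ≤ (⌈H⌉₊ : ℝ) := Nat.le_ceil H
    have hn2 : (⌈H⌉₊ : ℝ) ≤ H + 1 := (Nat.ceil_lt_add_one hH0).le
    have hnT : ⌈H⌉₊ ≤ ⌈T⌉₊ := Nat.ceil_le_ceil hHT
    have hlt : ∑ i ∈ Finset.Ico j (j + n), a i ≤ lam * n := by
      by_contra hcon
      push Not at hcon
      apply hjJ
      rw [hJ, Finset.mem_filter]
      refine ⟨Finset.mem_range.2 (by omega), n, by omega, by omega, hcon.le⟩
    rw [hsum j (j + n) (by omega)] at hlt
    have hmono : ∫ u in (t - 1)..(t + H + 2), zz u ^ p ≤ ∫ u in c j..c (j + n), zz u ^ p := by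
      apply intervalIntegral.integral_mono_interval
      · simp only [hc]; linarith
      · linarith
      · simp only [hc, hn]
        push_cast
        linarith
      · exact Eventually.of_forall hgp0
      · exact hgp.intervalIntegrable _ _
    refine hmono.trans (hlt.trans ?_)
    have : (n:ℝ) ≤ 6 * H := by
      rw [hn]; push_cast; linarith
    nlinarith

/-- **the windows** -/
theorem win {T p q lam t H : ℝ} (hT : 1000 ≤ T) (hp : 1 ≤ p) (hpq : p ≤ q) (hl : 0 < lam)
    (ht : t ∈ Icc (0:ℝ) T) (hH1 : 1 ≤ H) (hHT : H ≤ T)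
    (hI : ∫ u in (t - 1)..(t + H + 2), zz u ^ p ≤ 6 * lam * H) :
    ∫ u in t..(t + H), zz u ^ q ≤
      H * (6 * lam * max 1 (108 * (p + 1) * Real.log T * H * lam) ^ ((q - p) / p)) := by
  have hL0 : 69 / 10 ≤ Real.log T := log_ge hT
  set L := Real.log T with hL
  have hgp : Continuous fun t => zz t ^ p := zz_cont.rpow_const fun _ => Or.inr (by linarith)
  have hgq : Continuous fun t => zz t ^ q := zz_cont.rpow_const fun _ => Or.inr (by linarith)
  have hgp0 : ∀ t, 0 ≤ zz t ^ p := fun t => Real.rpow_nonneg (zz_nonneg t) _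
  set Q := max 1 (108 * (p + 1) * L * H * lam) with hQ
  have hQ1 : 1 ≤ Q := le_max_left _ _
  have hpt : ∀ u ∈ Icc t (t + H), zz u ^ p ≤ Q := by
    intro u hu
    rcases le_total 1 (zz u) with h | h
    · refine le_trans ?_ (le_max_right _ _)
      refine (value_le hT (by linarith [ht.1, hu.1]) (by linarith [ht.2, hu.2]) h hp).trans ?_
      have h2 : ∫ v in (u - 1)..(u + 2), zz v ^ p ≤ ∫ v in (t - 1)..(t + H + 2), zz v ^ p :=
        intervalIntegral.integral_mono_interval (by linarith [hu.1]) (by linarith) (by linarith [hu.2])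
          (Eventually.of_forall hgp0) (hgp.intervalIntegrable _ _)
      calc 18 * (p + 1) * L * ∫ v in (u - 1)..(u + 2), zz v ^ p
          ≤ 18 * (p + 1) * L * (6 * lam * H) := by
            gcongr
            exact h2.trans hI
        _ = 108 * (p + 1) * L * H * lam := by ring
    · exact (Real.rpow_le_one (zz_nonneg _) h (by linarith)).trans hQ1
  have hpt2 : ∀ u ∈ Icc t (t + H), zz u ^ q ≤ Q ^ ((q - p) / p) * zz u ^ p := by
    intro u hu
    have e : q = p * ((q - p) / p) + p := by field_simp; ring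
    rcases (zz_nonneg u).eq_or_lt with h0 | h0
    · rw [← h0, Real.zero_rpow (by linarith), Real.zero_rpow (by linarith)]
      simp
    · calc zz u ^ q = zz u ^ (p * ((q - p) / p) + p) := by rw [← e]
        _ = (zz u ^ p) ^ ((q - p) / p) * zz u ^ p := by
            rw [Real.rpow_add h0, Real.rpow_mul h0.le]
        _ ≤ Q ^ ((q - p) / p) * zz u ^ p := by
            apply mul_le_mul_of_nonneg_right _ (hgp0 u)
            exact Real.rpow_le_rpow (hgp0 u) (hpt u hu) (div_nonneg (by linarith) (by linarith))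
  have h3 : ∫ u in t..(t + H), zz u ^ q ≤ ∫ u in t..(t + H), Q ^ ((q - p) / p) * zz u ^ p :=
    intervalIntegral.integral_mono_on (by linarith) (hgq.intervalIntegrable _ _)
      ((continuous_const.mul hgp).intervalIntegrable _ _) hpt2
  rw [intervalIntegral.integral_const_mul] at h3
  have h4 : ∫ u in t..(t + H), zz u ^ p ≤ 6 * lam * H := by
    refine le_trans ?_ hI
    exact intervalIntegral.integral_mono_interval (by linarith) (by linarith) (by linarith)
      (Eventually.of_forall hgp0) (hgp.intervalIntegrable _ _)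
  have h5 : 0 ≤ Q ^ ((q - p) / p) := Real.rpow_nonneg (by linarith) _
  calc ∫ u in t..(t + H), zz u ^ q ≤ Q ^ ((q - p) / p) * ∫ u in t..(t + H), zz u ^ p := h3
    _ ≤ Q ^ ((q - p) / p) * (6 * lam * H) := by gcongr
    _ = _ := by ring

end Pool.Agent.V5helper23.ZW
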